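import Pool.Agent.H1.TU.Case1L
import Pool.Agent.H93.TU.CaseA
import Pool.Agent.H16.TU.Top

/-!
# Project TU, case 1: the final steps around the combination
-/

set_option autoImplicit false
set_option maxSynthPendingDepth 3

open Module QuadraticForm Filter Topology Metric
open Pool.Agent.H47.QG (Pt action flw oseq Gen ind hess Zn MeanIdx)
open Pool.Agent.H47.ST
open Pool.Agent.H10.TU
open Pool.Agent.H75.TH (Near Sepd Alive Wrong)
open Pool.Agent.H45.AC (Rgd exists_Rgd)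

namespace Pool.Agent.H1.TU

variable {n : ℕ}

/-- the data given by the failure of `Wrong` -/
theorem not_wrong {S : ℕ → Pt n → ℝ} {f : ℕ → Pt n → Pt n} {K : ℕ} [NeZero K]
    (h : ¬ Wrong S f K) : ∃ C : ℝ, ∀ ε > 0, ∀ (R₀ : ℝ) (q₀ : ℕ), ∃ (q : ℕ) (_ : Fact q.Prime),
      q₀ ≤ q ∧ ∃ g : (Iz n K → ℝ) → ℝ, Near S K C ε g ∧ Sepd S f K g ∧ ∃ R ≥ R₀,
        ∀ w t, flw f K w = w → MeanIdx S f K w t → t ≠ 0 → ¬ Alive f K g q R (g (zw f K w)) := by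
  unfold Wrong at h
  push Not at h
  obtain ⟨C, hC⟩ := h
  refine ⟨C, fun ε hε R₀ q₀ => ?_⟩
  obtain ⟨q, hq, hq0, g, hg, hsep, R, hR, hna⟩ := hC ε hε R₀ q₀
  exact ⟨q, hq, hq0, g, hg, hsep, R, hR, hna⟩

/-- a large domain for all functions close to the action -/
theorem near_Rgd {S : ℕ → Pt n → ℝ} {f : ℕ → Pt n → Pt n} (hS : ∀ j, Gen (S j) (f j)) (K : ℕ)
    [NeZero K] (C : ℝ) : ∃ (C' R₀ : ℝ), 0 < R₀ ∧ (∀ R ≥ R₀, Rgd n K 1 C' R) ∧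
      ∀ (ε : ℝ) (g : (Iz n K → ℝ) → ℝ), Near S K C ε g →
        ∀ y b, |fderiv ℝ g y (Pi.single b 1) - DK n K y b| ≤ C' := by
  obtain ⟨C₂, hC₂⟩ := fS_grad hS K
  obtain ⟨R₀, h0, hR⟩ := exists_Rgd n K one_pos (C + C₂)
  refine ⟨C + C₂, R₀, h0, hR, fun ε g hg y b => ?_⟩
  have h1 := hg.grad y b
  have h2 := hC₂ y b
  have h3 : fderiv ℝ g y (Pi.single b 1) - DK n K y b =
      (fderiv ℝ g y (Pi.single b 1) - fderiv ℝ (fS S K) y (Pi.single b 1)) +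
        (fderiv ℝ (fS S K) y (Pi.single b 1) - DK n K y b) := by ring
  rw [h3]
  exact (abs_add_le _ _).trans (by linarith)

/-- **The limit for a function close to the action.** -/
theorem case1_end {S : ℕ → Pt n → ℝ} {f : ℕ → Pt n → Pt n} (hS : ∀ j, Gen (S j) (f j)) {N : ℕ}
    [NeZero N] (W : Finset (Pt n)) (hW : ∀ w ∈ W, flw f N w = w) {C ε : ℝ}
    {g : (Iz n N → ℝ) → ℝ} (hg : Near S N C ε g) {b : ℕ} {r₀ : ℝ} (hr₀ : 0 < r₀)
    {P : Pt n → Prop} (h : ∀ δ > 0, ∃ w ∈ W, P w ∧ Pert b r₀ g (zw f N w) δ) :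
    ∃ w ∈ W, P w ∧ ∀ e : Fin b → (Iz n N → ℝ), NegFam (fS S N) (zw f N w) e →
      SDe (fS S N) (zw f N w) e := by
  classical
  have hz : ∀ w ∈ W, fderiv ℝ (fS S N) (zw f N w) = 0 := by
    intro w hw
    rw [fS_crit hS, ActZ_zw, ActZ_oseq_zero]
    exact ⟨hW w hw, rfl⟩
  obtain ⟨z, hz', hS'⟩ := case1_limit (b := b) hr₀ hg.smooth
    ((W.filter P).image (zw f N)) (fun z hz' => by
      obtain ⟨w, hw, rfl⟩ := Finset.mem_image.1 hz'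
      exact (hg.crit _).2 (hz w (Finset.mem_filter.1 hw).1)) (fun δ hδ => by
      obtain ⟨w, hw, hP, hPert⟩ := h δ hδ
      exact ⟨zw f N w, Finset.mem_image.2 ⟨w, Finset.mem_filter.2 ⟨hw, hP⟩, rfl⟩, hPert⟩)
  obtain ⟨w, hw, rfl⟩ := Finset.mem_image.1 hz'
  obtain ⟨hw, hP⟩ := Finset.mem_filter.1 hw
  obtain ⟨c, hc⟩ := hg.loc _ (hz w hw)
  refine ⟨w, hw, hP, fun e he => ?_⟩
  exact SDe_congr hc (hS' e (NegFam_congr hc he))

end Pool.Agent.H1.TU
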