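import Pool.Agent.H1.TU.StepP

/-!
# Project TU, case 1: the limit argument
-/

set_option autoImplicit false
set_option maxSynthPendingDepth 3

open Filter Topology Metric
open Pool.Agent.H10.TU

namespace Pool.Agent.H1.TU

variable {E : Type*} [NormedAddCommGroup E] [NormedSpace ℝ E]

theorem Pert.mono {b : ℕ} {r₀ : ℝ} {g : E → ℝ} {z : E} {δ δ' : ℝ} (h : Pert b r₀ g z δ)
    (hδ : δ ≤ δ') : Pert b r₀ g z δ' := by
  obtain ⟨f, x, h1, h2, h3, h4⟩ := h
  exact ⟨f, x, fun y => (h1 y).trans hδ, fun p hp => (h2 p hp).trans hδ, h3.trans hδ, h4⟩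

theorem pert_pigeon {b : ℕ} {r₀ : ℝ} {g : E → ℝ} (Z₀ : Finset E)
    (h : ∀ δ > 0, ∃ z ∈ Z₀, Pert b r₀ g z δ) : ∃ z ∈ Z₀, ∀ δ > 0, Pert b r₀ g z δ := by
  by_contra hcon
  push Not at hcon
  choose! d hd1 hd2 using hcon
  obtain ⟨z₁, hz₁, -⟩ := h 1 one_pos
  have hne : Z₀.Nonempty := ⟨z₁, hz₁⟩
  obtain ⟨m, hm, hmin⟩ := Z₀.exists_min_image d hne
  obtain ⟨z, hz, hp⟩ := h (d m) (hd1 m hm)
  exact hd2 z hz (hp.mono (hmin z hz))

/-- the limit at one point -/
theorem sde_of_pert [FiniteDimensional ℝ E] {b : ℕ} {r₀ : ℝ} (hr₀ : 0 < r₀) {g : E → ℝ}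
    (hg : ContDiff ℝ 2 g) {z : E} (hz : fderiv ℝ g z = 0) (h : ∀ δ > 0, Pert b r₀ g z δ)
    {e : Fin b → E} (he : NegFam g z e) : SDe g z e := by
  intro s hs
  obtain ⟨c, hc, hc'⟩ := D2_comb_le he
  obtain ⟨K, hK, hK'⟩ := comb_norm_le e
  obtain ⟨C, hC, hC'⟩ := co1_norm_le g z e
  have hCa : ∀ a : Fin b → ℝ, ‖a‖ ≤ C * ‖comb e a‖ := by
    intro a
    have := hC' (comb e a)
    rwa [co1_comb he] at this
  set ε : ℝ := c / (8 * K ^ 2) with hε
  have hε0 : 0 < ε := by positivity
  have hεK : ε * K ^ 2 = c / 8 := by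
    rw [hε]
    field_simp
  -- continuity of the second derivative
  have hD2c : Continuous (fun p => D2 g p) := (D1_c1 hg).continuous_fderiv (by norm_num)
  have hcn : Continuous fun p => ‖D2 g p - D2 g z‖ := (hD2c.sub continuous_const).norm
  have hev : ∀ᶠ p in 𝓝 z, ‖D2 g p - D2 g z‖ < ε :=
    hcn.continuousAt.eventually_lt_const (by
      change ‖D2 g z - D2 g z‖ < ε
      rw [sub_self, norm_zero]; exact hε0)
  obtain ⟨r₁, hr₁, hD2⟩ := Metric.eventually_nhds_iff_ball.1 hev
  obtain ⟨r₂, hr₂, hT⟩ := taylor_lip hg hz hε0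
  -- the radius
  obtain ⟨r, hr, hra, hrb, hrc, hrd⟩ : ∃ r > 0, r ≤ r₀ ∧ r < r₁ ∧ 2 * r ≤ r₂ ∧
      C * (2 * r) ≤ s := by
    have hm : 0 < min (min r₀ (r₁ / 2)) (min (r₂ / 2) (s / (2 * C))) := by positivity
    refine ⟨_, hm, ?_, ?_, ?_, ?_⟩
    · exact (min_le_left _ _).trans (min_le_left _ _)
    · have h1 := (min_le_left (min r₀ (r₁ / 2)) (min (r₂ / 2) (s / (2 * C)))).trans
        (min_le_right _ _)
      linarith
    · have h1 := (min_le_right (min r₀ (r₁ / 2)) (min (r₂ / 2) (s / (2 * C)))).trans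
        (min_le_left _ _)
      linarith
    · have h1 := (min_le_right (min r₀ (r₁ / 2)) (min (r₂ / 2) (s / (2 * C)))).trans
        (min_le_right _ _)
      rw [le_div_iff₀ (by positivity)] at h1
      linarith
  -- the gain on the shell
  set η : ℝ := c * r ^ 2 / (256 * K ^ 2) with hη
  have hη0 : 0 < η := by positivity
  set B : ℝ := ‖D2 g z‖ * (2 * r) + ε * (2 * r) with hB
  have hB0 : 0 ≤ B := by positivity
  obtain ⟨ρ, hρ, hρr, hρB⟩ : ∃ ρ > 0, ρ ≤ r / 4 ∧ B * ρ ≤ η := by
    refine ⟨min (r / 4) (η / (B + 1)), by positivity, min_le_left _ _, ?_⟩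
    have h1 := min_le_right (r / 4) (η / (B + 1))
    rw [le_div_iff₀ (by positivity)] at h1
    have h2 : 0 ≤ min (r / 4) (η / (B + 1)) := by positivity
    nlinarith
  have hshell : ∀ y, ‖y - z‖ ≤ ρ → ∀ a : Fin b → ℝ, r / 2 ≤ ‖y + comb e a - z‖ →
      ‖y + comb e a - z‖ ≤ r → g (y + comb e a) ≤ g z - 3 * η := by
    intro y hy a h1 h2
    have e1 : y + comb e a = z + (y + comb e a - z) := by abel
    have e2 : y + comb e a - z - comb e a = y - z := by abel
    have h3 : ‖comb e a‖ ≤ 2 * r := by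
      have : comb e a = (y + comb e a - z) - (y - z) := by abel
      rw [this]
      refine (norm_sub_le _ _).trans ?_
      linarith
    have h4 : r / 4 ≤ ‖comb e a‖ := by
      have : y + comb e a - z = comb e a + (y - z) := by abel
      have h5 := norm_add_le (comb e a) (y - z)
      rw [← this] at h5
      linarith
    have h5 := hT (y + comb e a - z) (comb e a) (by linarith) (by linarith)
    rw [← e1, e2] at h5
    have h6 := hT (comb e a) 0 (by linarith) (by rw [norm_zero]; linarith)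
    rw [sub_zero, add_zero, map_zero, zero_div, sub_zero, norm_zero,
      max_eq_left (norm_nonneg _)] at h6
    have h7 := hc' a
    -- the difference of the quadratic terms
    have h8 : |D2 g z (y + comb e a - z) (y + comb e a - z) -
        D2 g z (comb e a) (comb e a)| ≤ ‖D2 g z‖ * (r + 2 * r) * ρ := by
      have e3 : D2 g z (y + comb e a - z) (y + comb e a - z) - D2 g z (comb e a) (comb e a) =
          D2 g z (y - z) (y + comb e a - z) + D2 g z (comb e a) (y - z) := by
        have e4 : y + comb e a - z = comb e a + (y - z) := by abel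
        rw [e4]
        simp only [map_add, ContinuousLinearMap.add_apply]
        ring
      rw [e3]
      refine (abs_add_le _ _).trans ?_
      have h9 := (D2 g z).le_opNorm₂ (y - z) (y + comb e a - z)
      have h10 := (D2 g z).le_opNorm₂ (comb e a) (y - z)
      rw [Real.norm_eq_abs] at h9 h10
      have h11 : ‖D2 g z‖ * ‖y - z‖ * ‖y + comb e a - z‖ ≤ ‖D2 g z‖ * ρ * r := by gcongr
      have h12 : ‖D2 g z‖ * ‖comb e a‖ * ‖y - z‖ ≤ ‖D2 g z‖ * (2 * r) * ρ := by gcongr
      nlinarith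
    have h13 : ε * max ‖y + comb e a - z‖ ‖comb e a‖ * ‖y - z‖ ≤ ε * (2 * r) * ρ := by
      have : max ‖y + comb e a - z‖ ‖comb e a‖ ≤ 2 * r := max_le (by linarith) h3
      gcongr
    have h14 : ε * ‖comb e a‖ * ‖comb e a‖ ≤ c / 8 * ‖a‖ ^ 2 := by
      have h15 := hK' a
      calc ε * ‖comb e a‖ * ‖comb e a‖ ≤ ε * (K * ‖a‖) * (K * ‖a‖) := by gcongr
        _ = ε * K ^ 2 * ‖a‖ ^ 2 := by ring
        _ = c / 8 * ‖a‖ ^ 2 := by rw [hεK]
    have h16 : r / (4 * K) ≤ ‖a‖ := by
      rw [div_le_iff₀ (by positivity)]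
      have := hK' a
      linarith
    have h17 : r ^ 2 / (16 * K ^ 2) ≤ ‖a‖ ^ 2 := by
      have : (r / (4 * K)) ^ 2 ≤ ‖a‖ ^ 2 := by gcongr
      refine le_trans (le_of_eq ?_) this
      rw [div_pow]
      ring
    have h18 : 4 * η ≤ c / 4 * ‖a‖ ^ 2 := by
      have : 4 * η = c / 4 * (r ^ 2 / (16 * K ^ 2)) := by
        rw [hη]
        ring
      rw [this]
      gcongr
    have h19 := abs_le.1 h5
    have h20 := abs_le.1 h6
    have h21 := abs_le.1 h8
    have h22 : B * ρ = ‖D2 g z‖ * (2 * r) * ρ + ε * (2 * r) * ρ := by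
      rw [hB]
      ring
    have h23 : ‖D2 g z‖ * (r + 2 * r) * ρ / 2 ≤ ‖D2 g z‖ * (2 * r) * ρ := by
      have : 0 ≤ ‖D2 g z‖ * r * ρ := by positivity
      nlinarith
    have h24 : 0 ≤ c / 8 * ‖a‖ ^ 2 := by positivity
    nlinarith
  -- continuity of `g`
  have hgc : ContinuousAt g z := hg.continuous.continuousAt
  refine ⟨ρ, hρ, fun y hy => ?_⟩
  -- maximum over the compact slice
  have hcpt : IsCompact {a : Fin b → ℝ | ‖y + comb e a - z‖ ≤ r} := by
    refine Metric.isCompact_of_isClosed_isBounded ?_ ?_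
    · exact isClosed_le ((continuous_const.add (comb_continuous e)).sub
        continuous_const).norm continuous_const
    · refine (Metric.isBounded_iff_subset_closedBall (0 : Fin b → ℝ)).2 ⟨s, fun a ha => ?_⟩
      rw [mem_closedBall_zero_iff]
      have h3 : ‖comb e a‖ ≤ 2 * r := by
        have : comb e a = (y + comb e a - z) - (y - z) := by abel
        rw [this]
        refine (norm_sub_le _ _).trans ?_
        have ha' : ‖y + comb e a - z‖ ≤ r := ha
        linarith
      refine (hCa a).trans (le_trans ?_ hrd)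
      gcongr
  have hne : {a : Fin b → ℝ | ‖y + comb e a - z‖ ≤ r}.Nonempty := by
    refine ⟨0, ?_⟩
    change ‖y + comb e 0 - z‖ ≤ r
    rw [comb_zero, add_zero]
    linarith
  obtain ⟨a₀, ha₀, hmax⟩ := hcpt.exists_isMaxOn hne
    (f := fun a => g (y + comb e a))
    ((hg.continuous.comp (continuous_const.add (comb_continuous e))).continuousOn)
  have ha₀' : ‖y + comb e a₀ - z‖ ≤ r := ha₀
  refine ⟨a₀, ?_, ?_⟩
  · have h3 : ‖comb e a₀‖ ≤ 2 * r := by
      have : comb e a₀ = (y + comb e a₀ - z) - (y - z) := by abel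
      rw [this]
      refine (norm_sub_le _ _).trans ?_
      linarith
    refine (hCa a₀).trans (le_trans ?_ hrd)
    gcongr
  · refine le_of_forall_pos_le_add fun κ hκ => ?_
    -- choice of the perturbation
    obtain ⟨d, hd, hd'⟩ := Metric.continuousAt_iff.1 hgc (min (η / 2) (κ / 2)) (by positivity)
    have hm : 0 < min (min (d / 2) (ρ / 2)) (min (min (η / 4) (κ / 6)) ε) := by positivity
    obtain ⟨δ, hδ, hδ1, hδ2, hδ3, hδ4, hδ5⟩ : ∃ δ > 0, δ < d ∧ δ < ρ ∧ δ ≤ η / 4 ∧
        δ ≤ κ / 6 ∧ δ ≤ ε := by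
      refine ⟨_, hm, ?_, ?_, ?_, ?_, ?_⟩
      · have := (min_le_left (min (d / 2) (ρ / 2)) (min (min (η / 4) (κ / 6)) ε)).trans
          (min_le_left _ _)
        linarith
      · have := (min_le_left (min (d / 2) (ρ / 2)) (min (min (η / 4) (κ / 6)) ε)).trans
          (min_le_right _ _)
        linarith
      · exact ((min_le_right _ _).trans (min_le_left _ _)).trans (min_le_left _ _)
      · exact ((min_le_right _ _).trans (min_le_left _ _)).trans (min_le_right _ _)
      · exact (min_le_right _ _).trans (min_le_right _ _)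
    obtain ⟨f, x, hf1, hf2, hx, hstep⟩ := h δ hδ
    have hgx : |g x - g z| < min (η / 2) (κ / 2) := by
      have := hd' (x := x) (by rw [dist_eq_norm]; linarith)
      rwa [Real.dist_eq] at this
    have hgx1 : |g x - g z| < η / 2 := hgx.trans_le (min_le_left _ _)
    have hgx2 : |g x - g z| < κ / 2 := hgx.trans_le (min_le_right _ _)
    have hgx1' := abs_lt.1 hgx1
    have hgx2' := abs_lt.1 hgx2
    have hfx := abs_le.1 (hf1 x)
    obtain ⟨a, ha1, ha2⟩ := hstep e r ρ (f x - δ) hr hra hρ (by linarith)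
      (fun p hp a ha => by
        have h1 := hD2 p (mem_ball.2 (lt_of_le_of_lt (mem_closedBall.1 hp) hrb))
        have h2 := hf2 p (closedBall_subset_closedBall hra hp)
        have h3 : ‖D2 f p - D2 g z‖ ≤ 2 * ε := by
          have : D2 f p - D2 g z = (D2 f p - D2 g p) + (D2 g p - D2 g z) := by abel
          rw [this]
          refine (norm_add_le _ _).trans ?_
          linarith
        have h4 := (D2 f p - D2 g z).le_opNorm₂ (comb e a) (comb e a)
        have h5 : ‖D2 f p - D2 g z‖ * ‖comb e a‖ * ‖comb e a‖ ≤ c / 4 * ‖a‖ ^ 2 := by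
          have h15 := hK' a
          calc ‖D2 f p - D2 g z‖ * ‖comb e a‖ * ‖comb e a‖
              ≤ (2 * ε) * (K * ‖a‖) * (K * ‖a‖) := by gcongr
            _ = 2 * (ε * K ^ 2) * ‖a‖ ^ 2 := by ring
            _ = c / 4 * ‖a‖ ^ 2 := by rw [hεK]; ring
        have h6 := hc' a
        have h7 : D2 f p (comb e a) (comb e a) = D2 g z (comb e a) (comb e a) +
            (D2 f p - D2 g z) (comb e a) (comb e a) := by
          simp only [sub_apply]
          ring
        rw [Real.norm_eq_abs] at h4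
        have h8 := abs_le.1 (h4.trans h5)
        have h9 : 0 < ‖a‖ := norm_pos_iff.2 ha
        have h10 : 0 < ‖a‖ ^ 2 := by positivity
        rw [h7]
        nlinarith)
      (by linarith) (by linarith)
      (fun y' hy' a' h1 h2 => by
        have h3 := hshell y' hy' a' h1 h2
        have h4 := abs_le.1 (hf1 (y' + comb e a'))
        linarith) y hy.le
    have h1 : g (y + comb e a) ≤ g (y + comb e a₀) := hmax (a := a) ha1
    have h2 := abs_le.1 (hf1 (y + comb e a))
    linarith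

/-- **The limit argument.** -/
theorem case1_limit [FiniteDimensional ℝ E] {b : ℕ} {r₀ : ℝ} (hr₀ : 0 < r₀) {g : E → ℝ}
    (hg : ContDiff ℝ 2 g) (Z₀ : Finset E) (hZ₀ : ∀ z ∈ Z₀, fderiv ℝ g z = 0)
    (h : ∀ δ > 0, ∃ z ∈ Z₀, Pert b r₀ g z δ) :
    ∃ z ∈ Z₀, ∀ e : Fin b → E, NegFam g z e → SDe g z e := by
  obtain ⟨z, hz, hp⟩ := pert_pigeon Z₀ h
  exact ⟨z, hz, fun e he => sde_of_pert hr₀ hg (hZ₀ z hz) hp he⟩

/-- the property depends on the germ of the function up to a constant -/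
theorem SDe_congr {g f : E → ℝ} {z : E} {d : ℕ} {e : Fin d → E} {c : ℝ}
    (h : ∀ᶠ x in 𝓝 z, g x = f x + c) (hS : SDe g z e) : SDe f z e := by
  obtain ⟨s, hs, hs'⟩ := Metric.eventually_nhds_iff_ball.1 h
  obtain ⟨K, hK, hK'⟩ := comb_norm_le e
  intro r hr
  obtain ⟨ρ, hρ, h1⟩ := hS (min r (s / (2 * K))) (by positivity)
  refine ⟨min ρ (s / 2), by positivity, fun y hy => ?_⟩
  obtain ⟨a, ha, ha'⟩ := h1 y (hy.trans_le (min_le_left _ _))
  refine ⟨a, ha.trans (min_le_left _ _), ?_⟩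
  have h2 : y + comb e a ∈ ball z s := by
    rw [mem_ball, dist_eq_norm]
    have e1 : y + comb e a - z = (y - z) + comb e a := by abel
    rw [e1]
    refine (norm_add_le _ _).trans_lt ?_
    have h3 := hy.trans_le (min_le_right ρ (s / 2))
    have h4 := ha.trans (min_le_right _ _)
    rw [le_div_iff₀ (by positivity)] at h4
    have h5 := hK' a
    nlinarith
  have h3 : z ∈ ball z s := mem_ball_self hs
  rw [hs' z h3, hs' _ h2] at ha'
  linarith

/-- orthogonal negative families depend on the germ up to a constant -/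
theorem NegFam_congr {g f : E → ℝ} {z : E} {d : ℕ} {e : Fin d → E} {c : ℝ}
    (h : ∀ᶠ x in 𝓝 z, g x = f x + c) (he : NegFam f z e) : NegFam g z e := by
  have h1 : ∀ᶠ x in 𝓝 z, fderiv ℝ g x = fderiv ℝ f x := by
    have h2 : ∀ᶠ x in 𝓝 z, ∀ᶠ y in 𝓝 x, g y = f y + c := eventually_eventually_nhds.2 h
    filter_upwards [h2] with x hx
    have h3 : g =ᶠ[𝓝 x] fun y => f y + c := hx
    rw [h3.fderiv_eq, fderiv_add_const]
  have h2 : D2 g z = D2 f z := by
    have h3 : fderiv ℝ g =ᶠ[𝓝 z] fderiv ℝ f := h1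
    exact h3.fderiv_eq
  exact ⟨fun i j hij => by rw [h2]; exact he.orth i j hij, fun i => by rw [h2]; exact he.neg i⟩

end Pool.Agent.H1.TU
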