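import Pool.Agent.H10.TU.Lev1c

/-!
# Project TU, case 1: the property of a perturbation used in the limit
-/

set_option autoImplicit false

open Filter Topology Metric
open Pool.Agent.H10.TU

namespace Pool.Agent.H1.TU

variable {E : Type*} [NormedAddCommGroup E] [NormedSpace ℝ E]

/-- Output of the step functional for the critical point `x` of `f`, close to `z`: if the second
derivative of `f` is negative along `span e` in the ball of radius `r` about `z`, and `f < β < f x`
on the part near the boundary of the ball of the planes `y + span e`, `y` close to `z`, then all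
these planes meet `f ≥ β` inside the ball. -/
def StepP (b : ℕ) (r₀ : ℝ) (f : E → ℝ) (x z : E) : Prop :=
  ∀ (e : Fin b → E) (r ρ β : ℝ), 0 < r → r ≤ r₀ → 0 < ρ → ρ < r / 2 →
    (∀ p ∈ closedBall z r, ∀ a : Fin b → ℝ, a ≠ 0 → D2 f p (comb e a) (comb e a) < 0) →
    ‖x - z‖ < ρ → β < f x →
    (∀ y, ‖y - z‖ ≤ ρ → ∀ a : Fin b → ℝ, r / 2 ≤ ‖y + comb e a - z‖ →
      ‖y + comb e a - z‖ ≤ r → f (y + comb e a) < β) →
    ∀ y, ‖y - z‖ ≤ ρ → ∃ a : Fin b → ℝ, ‖y + comb e a - z‖ ≤ r ∧ β ≤ f (y + comb e a)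

/-- A perturbation of `g` with a critical point near `z` which has the step property. -/
def Pert (b : ℕ) (r₀ : ℝ) (g : E → ℝ) (z : E) (δ : ℝ) : Prop :=
  ∃ (f : E → ℝ) (x : E), (∀ y, |f y - g y| ≤ δ) ∧
    (∀ p ∈ closedBall z r₀, ‖D2 f p - D2 g p‖ ≤ δ) ∧ ‖x - z‖ ≤ δ ∧ StepP b r₀ f x z

end Pool.Agent.H1.TU
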